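import Mathlib

set_option autoImplicit false

/-!
# Intersecting families of triples without cheap fractional covers contain the Fano plane
-/

namespace Pool.Agent.TH528.DiamTwo

open Finset

/-- The seven lines of the Fano plane. -/
def lines : Finset (Finset (Fin 7)) :=
  {{0, 1, 2}, {0, 3, 4}, {0, 5, 6}, {1, 3, 5}, {1, 4, 6}, {2, 3, 6}, {2, 4, 5}}

/-- A set of points meeting all lines has at least three points, and is a line if it has exactly
three. -/
lemma blocking : ∀ S : Finset (Fin 7), (∀ l ∈ lines, (S ∩ l).Nonempty) →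
    3 ≤ S.card ∧ (S.card = 3 → S ∈ lines) := by
  decide +kernel

lemma lines_unique : ∀ l ∈ lines, ∀ l' ∈ lines, ∀ i ∈ l, ∀ j ∈ l, i ∈ l' → j ∈ l' → i ≠ j →
    l = l' := by
  decide +kernel

lemma lines_meet : ∀ l ∈ lines, ∀ l' ∈ lines, ∃ i ∈ l, i ∈ l' := by
  decide +kernel

lemma lines_ne_univ : ∀ l ∈ lines, ∃ i : Fin 7, i ∉ l := by
  decide +kernel

/-- There is no way to attach to each point a line through it in a symmetric fashion. -/
lemma no_sym_lines (S : Fin 7 → Finset (Fin 7)) (h1 : ∀ j, S j ∈ lines) (h2 : ∀ j, j ∈ S j)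
    (h3 : ∀ i j, i ∈ S j → j ∈ S i) : False := by
  obtain ⟨c, hc⟩ := lines_ne_univ (S 0) (h1 0)
  obtain ⟨z, hz0, hzc⟩ := lines_meet (S 0) (h1 0) (S c) (h1 c)
  have e1 : S z = S 0 := by
    by_cases h : z = 0
    · rw [h]
    · exact lines_unique _ (h1 z) _ (h1 0) z (h2 z) 0 (h3 _ _ hz0) hz0 (h2 0) h
  have e2 : S z = S c := by
    by_cases h : z = c
    · rw [h]
    · exact lines_unique _ (h1 z) _ (h1 c) z (h2 z) c (h3 _ _ hzc) hzc (h2 c) h
  apply hc
  rw [← e1, e2]
  exact h2 c

/-- The closed neighbourhoods in a graph on the seven points, if they all meet all the lines, have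
total size at least `23`. -/
lemma closed_sum (H : SimpleGraph (Fin 7)) [DecidableRel H.Adj]
    (h : ∀ j, ∀ l ∈ lines, (insert j (H.neighborFinset j) ∩ l).Nonempty) :
    23 ≤ ∑ j, (insert j (H.neighborFinset j)).card := by
  have hcard : ∀ j, (insert j (H.neighborFinset j)).card = H.degree j + 1 := by
    intro j
    rw [card_insert_of_notMem (by simp)]
    rfl
  have h3 : ∀ j, 3 ≤ (insert j (H.neighborFinset j)).card := fun j => (blocking _ (h j)).1
  have hsum : ∑ j, (insert j (H.neighborFinset j)).card = 2 * H.edgeFinset.card + 7 := by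
    rw [← H.sum_degrees_eq_twice_card_edges]
    simp only [hcard, sum_add_distrib]
    simp
  by_contra hlt
  push Not at hlt
  have h21 : ∑ j, (insert j (H.neighborFinset j)).card ≤ 21 := by omega
  have hall : ∀ j, (insert j (H.neighborFinset j)).card = 3 := by
    intro j
    by_contra hne
    have hj : 4 ≤ (insert j (H.neighborFinset j)).card := by
      have := h3 j
      omega
    have : ∑ _j : Fin 7, 3 < ∑ j, (insert j (H.neighborFinset j)).card :=
      sum_lt_sum (fun i _ => h3 i) ⟨j, mem_univ j, by omega⟩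
    have e21 : ∑ _j : Fin 7, 3 = 21 := by simp
    omega
  refine no_sym_lines (fun j => insert j (H.neighborFinset j))
    (fun j => (blocking _ (h j)).2 (hall j)) (fun j => mem_insert_self _ _) ?_
  intro i j hij
  simp only [mem_insert, SimpleGraph.mem_neighborFinset] at hij ⊢
  rcases hij with h | h
  · exact Or.inl h.symm
  · exact Or.inr h.symm

end Pool.Agent.TH528.DiamTwo
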