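import Mathlib
import Pool.Agent.TH528.DiamTwo.Fano

set_option autoImplicit false
set_option synthInstance.maxHeartbeats 400000
set_option synthInstance.maxSize 1000

/-!
# Intersecting families of triples without cheap fractional covers contain the Fano plane
-/

namespace Pool.Agent.TH528.DiamTwo

open Finset

variable {V : Type*} [Fintype V] [DecidableEq V]

/-- `F` has no fractional cover of total weight at most `9 / 4`. -/
def NoCover (F : Finset (Finset V)) : Prop :=
  ∀ (y : V → ℕ) (c : ℕ), 0 < c → 4 * ∑ x, y x ≤ 9 * c → ∃ E ∈ F, ∑ x ∈ E, y x < c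

omit [Fintype V] in
lemma sum_ind (Q E : Finset V) : ∑ x ∈ E, (if x ∈ Q then 1 else 0) = (E ∩ Q).card := by
  rw [← sum_filter, filter_mem_eq_inter]
  simp

lemma NoCover.light4 {F : Finset (Finset V)} (h : NoCover F) (Q : Finset V) (hQ : Q.card ≤ 4) :
    ∃ E ∈ F, (E ∩ Q).card ≤ 1 := by
  obtain ⟨E, hE, h1⟩ := h (fun x => if x ∈ Q then 1 else 0) 2 (by norm_num) (by
    rw [sum_ind]
    have : (univ ∩ Q).card = Q.card := by simp
    omega)
  rw [sum_ind] at h1
  exact ⟨E, hE, by omega⟩

lemma NoCover.avoid2 {F : Finset (Finset V)} (h : NoCover F) (a b : V) :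
    ∃ E ∈ F, a ∉ E ∧ b ∉ E := by
  obtain ⟨E, hE, h1⟩ := h (fun x => if x ∈ ({a, b} : Finset V) then 1 else 0) 1 (by norm_num) (by
    rw [sum_ind]
    have : (univ ∩ ({a, b} : Finset V)).card ≤ 2 := by
      rw [univ_inter]
      exact card_le_two
    omega)
  rw [sum_ind] at h1
  have h2 : E ∩ {a, b} = ∅ := by
    rw [← card_eq_zero]
    omega
  refine ⟨E, hE, ?_, ?_⟩
  · intro ha
    have : a ∈ E ∩ {a, b} := by simp [ha]
    rw [h2] at this
    simp at this
  · intro hb
    have : b ∈ E ∩ {a, b} := by simp [hb]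
    rw [h2] at this
    simp at this

lemma NoCover.light33 {F : Finset (Finset V)} (h : NoCover F) (T R : Finset V) (hT : T.card ≤ 3)
    (hR : R.card ≤ 3) : ∃ E ∈ F, 2 * (E ∩ T).card + (E ∩ R).card < 4 := by
  obtain ⟨E, hE, h1⟩ := h (fun x => 2 * (if x ∈ T then 1 else 0) + (if x ∈ R then 1 else 0)) 4
    (by norm_num) (by
    rw [sum_add_distrib, ← mul_sum, sum_ind, sum_ind]
    have h2 : (univ ∩ T).card = T.card := by simp
    have h3 : (univ ∩ R).card = R.card := by simp
    omega)
  rw [sum_add_distrib, ← mul_sum, sum_ind, sum_ind] at h1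
  exact ⟨E, hE, h1⟩

/-- Three members of the family through a common point that are otherwise disjoint. -/
lemma exists_star {F : Finset (Finset V)} (h3 : ∀ E ∈ F, E.card = 3)
    (hint : ∀ E ∈ F, ∀ E' ∈ F, (E ∩ E').Nonempty) (h : NoCover F) :
    ∃ x, ∃ E₁ ∈ F, ∃ E₂ ∈ F, ∃ E₃ ∈ F, E₁ ∩ E₂ = {x} ∧ E₁ ∩ E₃ = {x} ∧ E₂ ∩ E₃ = {x} := by
  by_contra hns
  push Not at hns
  obtain ⟨E, hE, -⟩ := h (fun _ => 0) 1 (by norm_num) (by simp)
  -- residual pairs meet
  have key : ∀ A ∈ F, ∀ B ∈ F, (A ∩ E).card = 1 → (B ∩ E).card = 1 →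
      ∃ z, z ∈ A ∧ z ∈ B ∧ z ∉ E := by
    intro A hA B hB hA1 hB1
    obtain ⟨s, hs⟩ := card_eq_one.1 hA1
    obtain ⟨t, ht⟩ := card_eq_one.1 hB1
    by_contra hno
    push Not at hno
    have hst : s = t := by
      obtain ⟨z, hz⟩ := hint A hA B hB
      rw [mem_inter] at hz
      have hzE := hno z hz.1 hz.2
      have h1 : z ∈ A ∩ E := mem_inter.2 ⟨hz.1, hzE⟩
      have h2 : z ∈ B ∩ E := mem_inter.2 ⟨hz.2, hzE⟩
      rw [hs, mem_singleton] at h1
      rw [ht, mem_singleton] at h2
      rw [← h1, ← h2]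
    subst hst
    refine hns s E hE A hA B hB (by rw [inter_comm]; exact hs) (by rw [inter_comm]; exact ht) ?_
    ext z
    simp only [mem_inter, mem_singleton]
    constructor
    · rintro ⟨h1, h2⟩
      have hzE := hno z h1 h2
      have h1 : z ∈ A ∩ E := mem_inter.2 ⟨h1, hzE⟩
      rw [hs, mem_singleton] at h1
      exact h1
    · rintro rfl
      have h1 : z ∈ A ∩ E := by rw [hs]; exact mem_singleton_self _
      have h2 : z ∈ B ∩ E := by rw [ht]; exact mem_singleton_self _
      exact ⟨(mem_inter.1 h1).1, (mem_inter.1 h2).1⟩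
  -- a member meeting `E` in one point and avoiding `z`
  have avoid : ∀ z, z ∉ E → ∃ A ∈ F, (A ∩ E).card = 1 ∧ z ∉ A := by
    intro z hz
    obtain ⟨A, hA, hA1⟩ := h.light4 (insert z E) (by
      have := card_insert_le z E
      have := h3 E hE
      omega)
    have h1 : 1 ≤ (A ∩ E).card := card_pos.2 (hint A hA E hE)
    have h2 : (A ∩ E).card ≤ (A ∩ insert z E).card :=
      card_le_card (inter_subset_inter_left (subset_insert z E))
    refine ⟨A, hA, by omega, ?_⟩
    intro hzA
    have h4 : insert z (A ∩ E) ⊆ A ∩ insert z E := by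
      intro w hw
      rw [mem_insert] at hw
      rcases hw with rfl | hw
      · simp [hzA]
      · rw [mem_inter] at hw
        simp [hw.1, hw.2]
    have h5 := card_le_card h4
    rw [card_insert_of_notMem (by simp [hz])] at h5
    omega
  have res2 : ∀ A ∈ F, (A ∩ E).card = 1 → (A \ E).card = 2 := by
    intro A hA hA1
    have := card_sdiff_add_card_inter A E
    have := h3 A hA
    omega
  -- first member
  obtain ⟨A, hA, hA1⟩ := h.light4 E (by have := h3 E hE; omega)
  have hA1 : (A ∩ E).card = 1 := by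
    have h1 : 1 ≤ (A ∩ E).card := card_pos.2 (hint A hA E hE)
    omega
  obtain ⟨p, q, hpq, hApq⟩ := card_eq_two.1 (res2 A hA hA1)
  have hpE : p ∉ E := (mem_sdiff.1 (show p ∈ A \ E by rw [hApq]; simp)).2
  have hqE : q ∉ E := (mem_sdiff.1 (show q ∈ A \ E by rw [hApq]; simp)).2
  obtain ⟨B, hB, hB1, hpB⟩ := avoid p hpE
  have hqB : q ∈ B := by
    obtain ⟨z, hzA, hzB, hzE⟩ := key A hA B hB hA1 hB1
    have hz : z ∈ A \ E := mem_sdiff.2 ⟨hzA, hzE⟩
    rw [hApq] at hz
    simp only [mem_insert, mem_singleton] at hz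
    rcases hz with rfl | rfl
    · exact absurd hzB hpB
    · exact hzB
  obtain ⟨r, hr, hBqr⟩ : ∃ r, r ≠ q ∧ B \ E = {q, r} := by
    obtain ⟨u, v, huv, hB2⟩ := card_eq_two.1 (res2 B hB hB1)
    have hq : q ∈ B \ E := mem_sdiff.2 ⟨hqB, hqE⟩
    rw [hB2] at hq
    simp only [mem_insert, mem_singleton] at hq
    rcases hq with rfl | rfl
    · exact ⟨v, huv.symm, hB2⟩
    · exact ⟨u, huv, by rw [hB2, pair_comm]⟩
  have hrB : r ∈ B \ E := by rw [hBqr]; simp
  have hrE : r ∉ E := (mem_sdiff.1 hrB).2
  have hrp : r ≠ p := by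
    rintro rfl
    exact hpB (mem_sdiff.1 hrB).1
  obtain ⟨C, hC, hC1, hqC⟩ := avoid q hqE
  have hpC : p ∈ C := by
    obtain ⟨z, hzA, hzB, hzE⟩ := key A hA C hC hA1 hC1
    have hz : z ∈ A \ E := mem_sdiff.2 ⟨hzA, hzE⟩
    rw [hApq] at hz
    simp only [mem_insert, mem_singleton] at hz
    rcases hz with rfl | rfl
    · exact hzB
    · exact absurd hzB hqC
  have hrC : r ∈ C := by
    obtain ⟨z, hzA, hzB, hzE⟩ := key B hB C hC hB1 hC1
    have hz : z ∈ B \ E := mem_sdiff.2 ⟨hzA, hzE⟩
    rw [hBqr] at hz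
    simp only [mem_insert, mem_singleton] at hz
    rcases hz with rfl | rfl
    · exact absurd hzB hqC
    · exact hzB
  have hCpr : C \ E = {p, r} := by
    symm
    apply eq_of_subset_of_card_le
    · intro z hz
      simp only [mem_insert, mem_singleton] at hz
      rcases hz with rfl | rfl
      · exact mem_sdiff.2 ⟨hpC, hpE⟩
      · exact mem_sdiff.2 ⟨hrC, hrE⟩
    · rw [res2 C hC hC1, card_pair (Ne.symm hrp)]
  obtain ⟨D, hD, hD1⟩ := h.light33 E {p, q, r} (by rw [h3 E hE]) card_le_three
  have hDE : 1 ≤ (D ∩ E).card := card_pos.2 (hint D hD E hE)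
  have hDE1 : (D ∩ E).card = 1 := by omega
  have hDR : (D ∩ {p, q, r}).card ≤ 1 := by omega
  rw [card_le_one] at hDR
  have memA : p ∈ D ∨ q ∈ D := by
    obtain ⟨z, hzA, hzB, hzE⟩ := key A hA D hD hA1 hDE1
    have hz : z ∈ A \ E := mem_sdiff.2 ⟨hzA, hzE⟩
    rw [hApq] at hz
    simp only [mem_insert, mem_singleton] at hz
    rcases hz with rfl | rfl
    · exact Or.inl hzB
    · exact Or.inr hzB
  have memB : q ∈ D ∨ r ∈ D := by
    obtain ⟨z, hzA, hzB, hzE⟩ := key B hB D hD hB1 hDE1
    have hz : z ∈ B \ E := mem_sdiff.2 ⟨hzA, hzE⟩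
    rw [hBqr] at hz
    simp only [mem_insert, mem_singleton] at hz
    rcases hz with rfl | rfl
    · exact Or.inl hzB
    · exact Or.inr hzB
  have memC : p ∈ D ∨ r ∈ D := by
    obtain ⟨z, hzA, hzB, hzE⟩ := key C hC D hD hC1 hDE1
    have hz : z ∈ C \ E := mem_sdiff.2 ⟨hzA, hzE⟩
    rw [hCpr] at hz
    simp only [mem_insert, mem_singleton] at hz
    rcases hz with rfl | rfl
    · exact Or.inl hzB
    · exact Or.inr hzB
  have two : ∀ u v, u ∈ D → v ∈ D → u ∈ ({p, q, r} : Finset V) → v ∈ ({p, q, r} : Finset V) →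
      u = v := fun u v hu hv h1 h2 =>
    hDR u (mem_inter.2 ⟨hu, h1⟩) v (mem_inter.2 ⟨hv, h2⟩)
  have e1 : p ∈ D → q ∈ D → False := fun a b => hpq (two p q a b (by simp) (by simp))
  have e2 : q ∈ D → r ∈ D → False := fun a b => hr (two q r a b (by simp) (by simp)).symm
  have e3 : p ∈ D → r ∈ D → False := fun a b => hrp (two p r a b (by simp) (by simp)).symm
  tauto

/-- The transversals of the three lines through `0`. -/
def tr (a b c : Bool) : Finset (Fin 7) :=
  {bif a then 2 else 1, bif b then 4 else 3, bif c then 6 else 5}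

lemma bool_lemma : ∀ t0 t1 t2 t3 t4 t5 t6 t7 : Bool,
    (t0 = true → t7 = false) → (t1 = true → t6 = false) → (t2 = true → t5 = false) →
    (t3 = true → t4 = false) →
    (t4 = true → t2 = true → t1 = true → t7 = true) → 
    (t5 = true → t3 = true → t0 = true → t6 = true) → 
    (t6 = true → t0 = true → t3 = true → t5 = true) → 
    (t7 = true → t1 = true → t2 = true → t4 = true) → 
    (t0 = true → t6 = true → t5 = true → t3 = true) → 
    (t1 = true → t7 = true → t4 = true → t2 = true) → 
    (t2 = true → t4 = true → t7 = true → t1 = true) → 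
    (t3 = true → t5 = true → t6 = true → t0 = true) → 
    (t0 = true ∨ t1 = true ∨ t2 = true ∨ t3 = true) → 
    (t4 = true ∨ t5 = true ∨ t6 = true ∨ t7 = true) → 
    (t0 = true ∨ t1 = true ∨ t4 = true ∨ t5 = true) → 
    (t2 = true ∨ t3 = true ∨ t6 = true ∨ t7 = true) → 
    (t0 = true ∨ t2 = true ∨ t4 = true ∨ t6 = true) → 
    (t1 = true ∨ t3 = true ∨ t5 = true ∨ t7 = true) → 
    ((t0 = true ∧ t3 = true ∧ t5 = true ∧ t6 = true) ∨
      (t1 = true ∧ t2 = true ∧ t4 = true ∧ t7 = true)) := by
  decide +kernel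

lemma code_prop (T : Bool → Bool → Bool → Prop)
    (h1 : ∀ a b c, T a b c → ¬ T (!a) (!b) (!c))
    (h2 : ∀ a b c, T (!a) b c → T a (!b) c → T a b (!c) → T (!a) (!b) (!c))
    (h3 : ∀ a, ∃ b c, T a b c) (h4 : ∀ b, ∃ a c, T a b c)
    (h5 : ∀ c, ∃ a b, T a b c) :
    (T false false false ∧ T false true true ∧ T true false true ∧
      T true true false) ∨ (T false false true ∧ T false true false ∧
      T true false false ∧ T true true true) := by
  classical
  have := bool_lemma (decide (T false false false)) (decide (T false false true)) (decide (T false true false)) (decide (T false true true)) (decide (T true false false)) (decide (T true false true)) (decide (T true true false)) (decide (T true true true))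
  simp only [decide_eq_true_eq, decide_eq_false_iff_not] at this
  apply this
  · exact h1 _ _ _
  · exact h1 _ _ _
  · exact h1 _ _ _
  · exact h1 _ _ _
  · exact h2 false false false
  · exact h2 false false true
  · exact h2 false true false
  · exact h2 false true true
  · exact h2 true false false
  · exact h2 true false true
  · exact h2 true true false
  · exact h2 true true true
  · have := h3 false; simp only [Bool.exists_bool] at this; tauto
  · have := h3 true; simp only [Bool.exists_bool] at this; tauto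
  · have := h4 false; simp only [Bool.exists_bool] at this; tauto
  · have := h4 true; simp only [Bool.exists_bool] at this; tauto
  · have := h5 false; simp only [Bool.exists_bool] at this; tauto
  · have := h5 true; simp only [Bool.exists_bool] at this; tauto

/-- An intersecting family of triples with fractional covering number greater than `9 / 4`
contains a Fano plane. -/
theorem exists_fano {F : Finset (Finset V)} (h3 : ∀ E ∈ F, E.card = 3)
    (hint : ∀ E ∈ F, ∀ E' ∈ F, (E ∩ E').Nonempty) (h : NoCover F) :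
    ∃ p : Fin 7 → V, Function.Injective p ∧ ∀ l ∈ lines, l.image p ∈ F := by
  obtain ⟨x, E₁, hE₁, E₂, hE₂, E₃, hE₃, h12, h13, h23⟩ := exists_star h3 hint h
  have hx1 : x ∈ E₁ := (mem_inter.1 (show x ∈ E₁ ∩ E₂ by rw [h12]; simp)).1
  have hx2 : x ∈ E₂ := (mem_inter.1 (show x ∈ E₁ ∩ E₂ by rw [h12]; simp)).2
  have hx3 : x ∈ E₃ := (mem_inter.1 (show x ∈ E₁ ∩ E₃ by rw [h13]; simp)).2
  have split : ∀ E ∈ F, x ∈ E → ∃ u v, u ≠ v ∧ u ≠ x ∧ v ≠ x ∧ E = {x, u, v} := by
    intro E hE hx
    have hc : (E.erase x).card = 2 := by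
      rw [card_erase_of_mem hx, h3 E hE]
    obtain ⟨u, v, huv, he⟩ := card_eq_two.1 hc
    have hu : u ∈ E.erase x := by rw [he]; simp
    have hv : v ∈ E.erase x := by rw [he]; simp
    refine ⟨u, v, huv, (mem_erase.1 hu).1, (mem_erase.1 hv).1, ?_⟩
    rw [← insert_erase hx, he]
  obtain ⟨a₁, a₂, ha, ha1, ha2, rfl⟩ := split E₁ hE₁ hx1
  obtain ⟨b₁, b₂, hb, hb1, hb2, rfl⟩ := split E₂ hE₂ hx2
  obtain ⟨c₁, c₂, hc, hc1, hc2, rfl⟩ := split E₃ hE₃ hx3
  have nab : ∀ u v, u ∈ ({x, a₁, a₂} : Finset V) → v ∈ ({x, b₁, b₂} : Finset V) → u ≠ x →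
      u ≠ v := by
    rintro u v hu hv hux rfl
    have : u ∈ ({x, a₁, a₂} : Finset V) ∩ {x, b₁, b₂} := mem_inter.2 ⟨hu, hv⟩
    rw [h12, mem_singleton] at this
    exact hux this
  have nac : ∀ u v, u ∈ ({x, a₁, a₂} : Finset V) → v ∈ ({x, c₁, c₂} : Finset V) → u ≠ x →
      u ≠ v := by
    rintro u v hu hv hux rfl
    have : u ∈ ({x, a₁, a₂} : Finset V) ∩ {x, c₁, c₂} := mem_inter.2 ⟨hu, hv⟩
    rw [h13, mem_singleton] at this
    exact hux this
  have nbc : ∀ u v, u ∈ ({x, b₁, b₂} : Finset V) → v ∈ ({x, c₁, c₂} : Finset V) → u ≠ x →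
      u ≠ v := by
    rintro u v hu hv hux rfl
    have : u ∈ ({x, b₁, b₂} : Finset V) ∩ {x, c₁, c₂} := mem_inter.2 ⟨hu, hv⟩
    rw [h23, mem_singleton] at this
    exact hux this
  have d11 := nab a₁ b₁ (by simp) (by simp) ha1
  have d12 := nab a₁ b₂ (by simp) (by simp) ha1
  have d21 := nab a₂ b₁ (by simp) (by simp) ha2
  have d22 := nab a₂ b₂ (by simp) (by simp) ha2
  have e11 := nac a₁ c₁ (by simp) (by simp) ha1
  have e12 := nac a₁ c₂ (by simp) (by simp) ha1
  have e21 := nac a₂ c₁ (by simp) (by simp) ha2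
  have e22 := nac a₂ c₂ (by simp) (by simp) ha2
  have f11 := nbc b₁ c₁ (by simp) (by simp) hb1
  have f12 := nbc b₁ c₂ (by simp) (by simp) hb1
  have f21 := nbc b₂ c₁ (by simp) (by simp) hb2
  have f22 := nbc b₂ c₂ (by simp) (by simp) hb2
  set p : Fin 7 → V := ![x, a₁, a₂, b₁, b₂, c₁, c₂] with hp
  have hinj : Function.Injective p := by
    intro i j hij
    fin_cases i <;> fin_cases j <;> simp [hp] at hij ⊢ <;> first | (exact absurd hij (by assumption)) | (exact absurd hij.symm (by assumption))
  clear d11 d12 d21 d22 e11 e12 e21 e22 f11 f12 f21 f22 nab nac nbc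
  have p0 : p 0 = x := rfl
  have hline1 : ({0, 1, 2} : Finset (Fin 7)).image p ∈ F := by
    have : ({0, 1, 2} : Finset (Fin 7)).image p = {x, a₁, a₂} := by
      simp [image_insert, hp]
    rw [this]; exact hE₁
  have hline2 : ({0, 3, 4} : Finset (Fin 7)).image p ∈ F := by
    have : ({0, 3, 4} : Finset (Fin 7)).image p = {x, b₁, b₂} := by
      simp [image_insert, hp]
    rw [this]; exact hE₂
  have hline3 : ({0, 5, 6} : Finset (Fin 7)).image p ∈ F := by
    have : ({0, 5, 6} : Finset (Fin 7)).image p = {x, c₁, c₂} := by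
      simp [image_insert, hp]
    rw [this]; exact hE₃
  have trcard : ∀ a b c, (tr a b c).card = 3 := by decide
  -- members of the family avoiding `x` are transversals
  have htr : ∀ E ∈ F, x ∉ E → ∃ a b c, E = (tr a b c).image p := by
    intro E hE hx
    have g1 : ∃ a : Bool, p (bif a then 2 else 1) ∈ E := by
      obtain ⟨z, hz⟩ := hint E hE _ hline1
      simp only [mem_inter, mem_image, mem_insert, mem_singleton] at hz
      obtain ⟨hzE, i, hi, rfl⟩ := hz
      rcases hi with rfl | rfl | rfl
      · exact absurd hzE hx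
      · exact ⟨false, hzE⟩
      · exact ⟨true, hzE⟩
    have g2 : ∃ a : Bool, p (bif a then 4 else 3) ∈ E := by
      obtain ⟨z, hz⟩ := hint E hE _ hline2
      simp only [mem_inter, mem_image, mem_insert, mem_singleton] at hz
      obtain ⟨hzE, i, hi, rfl⟩ := hz
      rcases hi with rfl | rfl | rfl
      · exact absurd hzE hx
      · exact ⟨false, hzE⟩
      · exact ⟨true, hzE⟩
    have g3 : ∃ a : Bool, p (bif a then 6 else 5) ∈ E := by
      obtain ⟨z, hz⟩ := hint E hE _ hline3
      simp only [mem_inter, mem_image, mem_insert, mem_singleton] at hz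
      obtain ⟨hzE, i, hi, rfl⟩ := hz
      rcases hi with rfl | rfl | rfl
      · exact absurd hzE hx
      · exact ⟨false, hzE⟩
      · exact ⟨true, hzE⟩
    obtain ⟨a, ha⟩ := g1
    obtain ⟨b, hb⟩ := g2
    obtain ⟨c, hc⟩ := g3
    refine ⟨a, b, c, ?_⟩
    symm
    apply eq_of_subset_of_card_le
    · intro z hz
      simp only [tr, mem_image, mem_insert, mem_singleton] at hz
      obtain ⟨i, hi, rfl⟩ := hz
      rcases hi with rfl | rfl | rfl
      · exact ha
      · exact hb
      · exact hc
    · rw [h3 E hE, card_image_of_injective _ hinj, trcard]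
  have hav : ∀ i : Fin 7, ∃ a b c, (tr a b c).image p ∈ F ∧ i ∉ tr a b c := by
    intro i
    obtain ⟨E, hE, hx, hi⟩ := h.avoid2 x (p i)
    obtain ⟨a, b, c, rfl⟩ := htr E hE hx
    refine ⟨a, b, c, hE, fun hmem => hi (mem_image_of_mem p hmem)⟩
  have hanti : ∀ a b c, (tr a b c).image p ∈ F → (tr (!a) (!b) (!c)).image p ∉ F := by
    intro a b c h1 h2
    obtain ⟨z, hz⟩ := hint _ h1 _ h2
    rw [← image_inter _ _ hinj] at hz
    have hd : ∀ a b c, tr a b c ∩ tr (!a) (!b) (!c) = ∅ := by decide
    rw [hd] at hz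
    simp at hz
  have hball : ∀ a b c, (tr (!a) b c).image p ∈ F → (tr a (!b) c).image p ∈ F →
      (tr a b (!c)).image p ∈ F → (tr (!a) (!b) (!c)).image p ∈ F := by
    intro a b c h1 h2 h4
    obtain ⟨E, hE, hE1⟩ := h.light4 (insert x ((tr a b c).image p)) (by
      have := card_insert_le x ((tr a b c).image p)
      rw [card_image_of_injective _ hinj, trcard] at this
      exact this)
    rw [card_le_one] at hE1
    by_cases hx : x ∈ E
    · exfalso
      have hno : ∀ i ∈ tr a b c, p i ∉ E := by
        intro i hi hiE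
        have := hE1 x (mem_inter.2 ⟨hx, mem_insert_self _ _⟩) (p i)
          (mem_inter.2 ⟨hiE, mem_insert_of_mem (mem_image_of_mem p hi)⟩)
        rw [← p0] at this
        have h0 := hinj this
        have hd : ∀ a b c, (0 : Fin 7) ∉ tr a b c := by decide
        rw [← h0] at hi
        exact hd _ _ _ hi
      have k1 : p (bif !a then 2 else 1) ∈ E := by
        obtain ⟨z, hz⟩ := hint E hE _ h1
        simp only [tr, mem_inter, mem_image, mem_insert, mem_singleton] at hz
        obtain ⟨hzE, i, hi, rfl⟩ := hz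
        rcases hi with rfl | rfl | rfl
        · exact hzE
        · exact absurd hzE (hno _ (by simp [tr]))
        · exact absurd hzE (hno _ (by simp [tr]))
      have k2 : p (bif !b then 4 else 3) ∈ E := by
        obtain ⟨z, hz⟩ := hint E hE _ h2
        simp only [tr, mem_inter, mem_image, mem_insert, mem_singleton] at hz
        obtain ⟨hzE, i, hi, rfl⟩ := hz
        rcases hi with rfl | rfl | rfl
        · exact absurd hzE (hno _ (by simp [tr]))
        · exact hzE
        · exact absurd hzE (hno _ (by simp [tr]))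
      have k3 : p (bif !c then 6 else 5) ∈ E := by
        obtain ⟨z, hz⟩ := hint E hE _ h4
        simp only [tr, mem_inter, mem_image, mem_insert, mem_singleton] at hz
        obtain ⟨hzE, i, hi, rfl⟩ := hz
        rcases hi with rfl | rfl | rfl
        · exact absurd hzE (hno _ (by simp [tr]))
        · exact absurd hzE (hno _ (by simp [tr]))
        · exact hzE
      have hsub : (insert 0 (tr (!a) (!b) (!c))).image p ⊆ E := by
        intro z hz
        simp only [tr, mem_image, mem_insert, mem_singleton] at hz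
        obtain ⟨i, hi, rfl⟩ := hz
        rcases hi with rfl | rfl | rfl | rfl
        · exact hx
        · exact k1
        · exact k2
        · exact k3
      have hcard := card_le_card hsub
      rw [card_image_of_injective _ hinj, h3 E hE] at hcard
      have hd : ∀ a b c, (insert (0 : Fin 7) (tr a b c)).card = 4 := by decide
      rw [hd] at hcard
      omega
    · obtain ⟨a', b', c', rfl⟩ := htr E hE hx
      have hle : (tr a' b' c' ∩ tr a b c).card ≤ 1 := by
        rw [card_le_one]
        intro i hi j hj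
        rw [mem_inter] at hi hj
        exact hinj (hE1 (p i) (mem_inter.2 ⟨mem_image_of_mem p hi.1,
          mem_insert_of_mem (mem_image_of_mem p hi.2)⟩) (p j) (mem_inter.2
            ⟨mem_image_of_mem p hj.1, mem_insert_of_mem (mem_image_of_mem p hj.2)⟩))
      have hd : ∀ a b c a' b' c' : Bool, (tr a' b' c' ∩ tr a b c).card ≤ 1 →
          (a' = a ∧ b' = !b ∧ c' = !c) ∨ (a' = !a ∧ b' = b ∧ c' = !c) ∨
          (a' = !a ∧ b' = !b ∧ c' = c) ∨ (a' = !a ∧ b' = !b ∧ c' = !c) := by decide
      rcases hd _ _ _ _ _ _ hle with ⟨rfl, rfl, rfl⟩ | ⟨rfl, rfl, rfl⟩ | ⟨rfl, rfl, rfl⟩ |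
        ⟨rfl, rfl, rfl⟩
      · exact absurd hE (by
          have := hanti _ _ _ h1
          rwa [Bool.not_not] at this)
      · exact absurd hE (by
          have := hanti _ _ _ h2
          rwa [Bool.not_not] at this)
      · exact absurd hE (by
          have := hanti _ _ _ h4
          rwa [Bool.not_not] at this)
      · exact hE
  -- the Boolean conclusion
  have hcode : ((tr false false false).image p ∈ F ∧ (tr false true true).image p ∈ F ∧
      (tr true false true).image p ∈ F ∧ (tr true true false).image p ∈ F) ∨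
      ((tr false false true).image p ∈ F ∧ (tr false true false).image p ∈ F ∧
      (tr true false false).image p ∈ F ∧ (tr true true true).image p ∈ F) := by
    refine code_prop (fun a b c => (tr a b c).image p ∈ F) hanti hball ?_ ?_ ?_
    · intro a
      cases a
      · obtain ⟨a, b, c, hm, hi⟩ := hav 2
        have hd : ∀ a b c, 2 ∉ tr a b c → a = false := by decide
        obtain rfl := hd _ _ _ hi
        exact ⟨b, c, hm⟩
      · obtain ⟨a, b, c, hm, hi⟩ := hav 1
        have hd : ∀ a b c, 1 ∉ tr a b c → a = true := by decide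
        obtain rfl := hd _ _ _ hi
        exact ⟨b, c, hm⟩
    · intro b
      cases b
      · obtain ⟨a, b, c, hm, hi⟩ := hav 4
        have hd : ∀ a b c, 4 ∉ tr a b c → b = false := by decide
        obtain rfl := hd _ _ _ hi
        exact ⟨a, c, hm⟩
      · obtain ⟨a, b, c, hm, hi⟩ := hav 3
        have hd : ∀ a b c, 3 ∉ tr a b c → b = true := by decide
        obtain rfl := hd _ _ _ hi
        exact ⟨a, c, hm⟩
    · intro c
      cases c
      · obtain ⟨a, b, c, hm, hi⟩ := hav 6
        have hd : ∀ a b c, 6 ∉ tr a b c → c = false := by decide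
        obtain rfl := hd _ _ _ hi
        exact ⟨a, b, hm⟩
      · obtain ⟨a, b, c, hm, hi⟩ := hav 5
        have hd : ∀ a b c, 5 ∉ tr a b c → c = true := by decide
        obtain rfl := hd _ _ _ hi
        exact ⟨a, b, hm⟩
  rcases hcode with ⟨q1, q2, q3, q4⟩ | ⟨q1, q2, q3, q4⟩
  · refine ⟨p, hinj, ?_⟩
    intro l hl
    simp only [lines, mem_insert, mem_singleton] at hl
    rcases hl with rfl | rfl | rfl | rfl | rfl | rfl | rfl
    · exact hline1
    · exact hline2
    · exact hline3
    · exact q1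
    · exact q2
    · exact q3
    · exact q4
  · refine ⟨p ∘ Equiv.swap 1 2, hinj.comp (Equiv.swap 1 2).injective, ?_⟩
    intro l hl
    rw [← image_image]
    simp only [lines, mem_insert, mem_singleton] at hl
    rcases hl with rfl | rfl | rfl | rfl | rfl | rfl | rfl
    · have : ({0, 1, 2} : Finset (Fin 7)).image (Equiv.swap 1 2) = {0, 1, 2} := by decide
      rw [this]; exact hline1
    · have : ({0, 3, 4} : Finset (Fin 7)).image (Equiv.swap 1 2) = {0, 3, 4} := by decide
      rw [this]; exact hline2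
    · have : ({0, 5, 6} : Finset (Fin 7)).image (Equiv.swap 1 2) = {0, 5, 6} := by decide
      rw [this]; exact hline3
    · have : ({1, 3, 5} : Finset (Fin 7)).image (Equiv.swap 1 2) = tr true false false := by decide
      rw [this]; exact q3
    · have : ({1, 4, 6} : Finset (Fin 7)).image (Equiv.swap 1 2) = tr true true true := by decide
      rw [this]; exact q4
    · have : ({2, 3, 6} : Finset (Fin 7)).image (Equiv.swap 1 2) = tr false false true := by decide
      rw [this]; exact q1
    · have : ({2, 4, 5} : Finset (Fin 7)).image (Equiv.swap 1 2) = tr false true false := by decide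
      rw [this]; exact q2

end Pool.Agent.TH528.DiamTwo
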