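import Mathlib
import Pool.Agent.TH528.DiamTwo.Cover

set_option autoImplicit false

/-!
# Lower bound for the size of graphs of diameter two with maximum degree below `3 n / 7`
-/

namespace Pool.Agent.TH528.DiamTwo

open Finset

variable {V : Type*} [Fintype V] [DecidableEq V] (G : SimpleGraph V) [DecidableRel G.Adj]

/-- Any two vertices are equal, adjacent or have a common neighbour. -/
def D2 {V : Type*} (G : SimpleGraph V) : Prop :=
  ∀ u v, u = v ∨ G.Adj u v ∨ ∃ w, G.Adj u w ∧ G.Adj w v

omit [DecidableEq V] in
lemma card_le_of_d2 (h : D2 G) (v : V) :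
    Fintype.card V ≤ 1 + G.degree v + ∑ u ∈ G.neighborFinset v, G.degree u := by
  classical
  have hsub : (univ : Finset V) ⊆ (insert v (G.neighborFinset v)) ∪
      (G.neighborFinset v).biUnion (fun u => G.neighborFinset u) := by
    intro w _
    rcases h v w with rfl | h1 | ⟨u, h1, h2⟩
    · simp
    · simp [h1]
    · simp only [mem_union, mem_biUnion, SimpleGraph.mem_neighborFinset]
      right
      exact ⟨u, h1, h2⟩
  calc Fintype.card V = (univ : Finset V).card := rfl
    _ ≤ _ := card_le_card hsub
    _ ≤ (insert v (G.neighborFinset v)).card +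
        ((G.neighborFinset v).biUnion (fun u => G.neighborFinset u)).card := card_union_le _ _
    _ ≤ (G.degree v + 1) + ∑ u ∈ G.neighborFinset v, G.degree u := by
        apply Nat.add_le_add
        · exact card_insert_le _ _
        · exact card_biUnion_le
    _ = _ := by ring

/-- vertices of linear degree -/
def big (n : ℕ) : Finset V := univ.filter fun u => n < 100 * G.degree u

/-- the number of big neighbours -/
def hb (n : ℕ) (v : V) : ℕ := (G.neighborFinset v ∩ big G n).card

lemma three_le_hb {n : ℕ} (hn : Fintype.card V = n) (hn0 : 110 ≤ n) (h : D2 G)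
    (hdeg : ∀ v, 7 * G.degree v ≤ 3 * n) (v : V) (hv : G.degree v ≤ 7) : 3 ≤ hb G n v := by
  by_contra hlt
  have hcard := card_le_of_d2 G h v
  rw [hn] at hcard
  have hsplit : ∑ u ∈ G.neighborFinset v, G.degree u =
      ∑ u ∈ G.neighborFinset v ∩ big G n, G.degree u +
      ∑ u ∈ G.neighborFinset v \ big G n, G.degree u := by
    exact (sum_inter_add_sum_sdiff _ _ _).symm
  have h1 : ∑ u ∈ G.neighborFinset v ∩ big G n, 7 * G.degree u ≤ hb G n v * (3 * n) := by
    rw [hb, ← smul_eq_mul (a := (G.neighborFinset v ∩ big G n).card)]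
    exact sum_le_card_nsmul _ _ _ (fun u _ => hdeg u)
  have h2 : ∑ u ∈ G.neighborFinset v \ big G n, 100 * G.degree u ≤
      (G.neighborFinset v \ big G n).card * n := by
    rw [← smul_eq_mul (a := (G.neighborFinset v \ big G n).card)]
    apply sum_le_card_nsmul
    intro u hu
    rw [mem_sdiff] at hu
    have := hu.2
    simp only [big, mem_filter, mem_univ, true_and, not_lt] at this
    exact this
  rw [← mul_sum] at h1 h2
  have h3 : (G.neighborFinset v \ big G n).card ≤ 7 :=
    (card_le_card sdiff_subset).trans hv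
  have h4 : (G.neighborFinset v \ big G n).card * n ≤ 7 * n := Nat.mul_le_mul_right _ h3
  have h5 : hb G n v * (3 * n) ≤ 2 * (3 * n) := Nat.mul_le_mul_right _ (by omega)
  omega

omit [DecidableEq V] in
lemma card_big {n : ℕ} (hn0 : 0 < n) (he : 100 * G.edgeFinset.card ≤ 301 * n) :
    (big G n).card ≤ 602 := by
  have h1 : (big G n).card * n ≤ ∑ u ∈ big G n, 100 * G.degree u := by
    rw [← smul_eq_mul (a := (big G n).card)]
    apply card_nsmul_le_sum
    intro u hu
    simp only [big, mem_filter, mem_univ, true_and] at hu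
    exact hu.le
  have h2 : ∑ u ∈ big G n, 100 * G.degree u ≤ 100 * (2 * G.edgeFinset.card) := by
    rw [← mul_sum, ← G.sum_degrees_eq_twice_card_edges]
    exact Nat.mul_le_mul_left _ (sum_le_sum_of_subset (subset_univ _))
  have h3 : (big G n).card * n ≤ 602 * n := by omega
  exact Nat.le_of_mul_le_mul_right h3 hn0

/-- Double counting of the edges with at most one big end. -/
lemma sum_nonbig (n : ℕ) :
    ∑ v ∈ (big G n)ᶜ, (G.degree v + hb G n v) ≤ 2 * G.edgeFinset.card := by
  have h1 : ∑ v ∈ (big G n)ᶜ, hb G n v ≤ ∑ u ∈ big G n, G.degree u := by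
    have e1 : ∀ v, hb G n v = ∑ u ∈ big G n, if G.Adj v u then 1 else 0 := by
      intro v
      rw [← sum_filter, hb]
      simp only [sum_const, smul_eq_mul, mul_one]
      congr 1
      ext u
      simp [and_comm]
    have e2 : ∀ u, G.degree u = ∑ v, if G.Adj v u then 1 else 0 := by
      intro u
      rw [← sum_filter]
      simp only [sum_const, smul_eq_mul, mul_one]
      rw [← G.card_neighborFinset_eq_degree]
      congr 1
      ext v
      simp [G.adj_comm]
    calc ∑ v ∈ (big G n)ᶜ, hb G n v = ∑ v ∈ (big G n)ᶜ, ∑ u ∈ big G n, if G.Adj v u then 1 else 0 :=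
          sum_congr rfl (fun v _ => e1 v)
      _ = ∑ u ∈ big G n, ∑ v ∈ (big G n)ᶜ, if G.Adj v u then 1 else 0 := sum_comm
      _ ≤ ∑ u ∈ big G n, ∑ v, if G.Adj v u then 1 else 0 :=
          sum_le_sum (fun u _ => sum_le_sum_of_subset (subset_univ _))
      _ = ∑ u ∈ big G n, G.degree u := sum_congr rfl (fun u _ => (e2 u).symm)
  rw [sum_add_distrib, ← G.sum_degrees_eq_twice_card_edges, ← sum_compl_add_sum (big G n)]
  exact Nat.add_le_add_left h1 _

/-- the non-big vertices of degree three all of whose neighbours are big -/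
def V3 (n : ℕ) : Finset V :=
  (big G n)ᶜ.filter fun v => G.degree v = 3 ∧ G.neighborFinset v ⊆ big G n

lemma card_V3 {n : ℕ} (hn : Fintype.card V = n) (hn0 : 110 ≤ n) (h : D2 G)
    (hdeg : ∀ v, 7 * G.degree v ≤ 3 * n) :
    7 * n ≤ 2 * G.edgeFinset.card + (V3 G n).card + 7 * (big G n).card := by
  have hpt : ∀ v ∈ (big G n)ᶜ, 7 ≤ G.degree v + hb G n v +
      (if G.degree v = 3 ∧ G.neighborFinset v ⊆ big G n then 1 else 0) := by
    intro v _
    by_cases hv : G.degree v ≤ 7
    · have h1 := three_le_hb G hn hn0 h hdeg v hv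
      have h2 : hb G n v ≤ G.degree v := card_le_card inter_subset_left
      by_cases h3 : G.degree v = 3
      · have h4 : G.neighborFinset v ⊆ big G n := by
          have h5 : G.neighborFinset v ∩ big G n = G.neighborFinset v := by
            apply eq_of_subset_of_card_le inter_subset_left
            change G.degree v ≤ hb G n v
            omega
          exact inter_eq_left.1 h5
        rw [if_pos ⟨h3, h4⟩]
        omega
      · omega
    · omega
  have h1 := sum_le_sum hpt
  rw [sum_add_distrib, ← sum_filter] at h1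
  simp only [sum_const, smul_eq_mul, mul_one] at h1
  have h2 := sum_nonbig G n
  have h3 : (big G n)ᶜ.card = n - (big G n).card := by rw [card_compl, hn]
  have h4 : ((big G n)ᶜ.filter fun v => G.degree v = 3 ∧ G.neighborFinset v ⊆ big G n).card =
    (V3 G n).card := rfl
  rw [h3, h4] at h1
  have h5 : (big G n).card ≤ n := by rw [← hn]; exact card_le_univ _
  omega

/-- A fractional cover of the neighbourhoods bounds their number. -/
lemma cover_bound {n : ℕ} (hdeg : ∀ v, 7 * G.degree v ≤ 3 * n) (y : V → ℕ) (c : ℕ)
    (hc : ∀ v ∈ V3 G n, c ≤ ∑ x ∈ G.neighborFinset v, y x) :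
    7 * (c * (V3 G n).card) ≤ (∑ x, y x) * (3 * n) := by
  have h1 : c * (V3 G n).card ≤ ∑ v ∈ V3 G n, ∑ x ∈ G.neighborFinset v, y x := by
    rw [mul_comm, ← smul_eq_mul]
    exact card_nsmul_le_sum _ _ _ hc
  have h2 : ∑ v ∈ V3 G n, ∑ x ∈ G.neighborFinset v, y x ≤ ∑ x, y x * G.degree x := by
    calc ∑ v ∈ V3 G n, ∑ x ∈ G.neighborFinset v, y x
        ≤ ∑ v, ∑ x ∈ G.neighborFinset v, y x := sum_le_sum_of_subset (subset_univ _)
      _ = ∑ v, ∑ x, if G.Adj v x then y x else 0 := by
          apply sum_congr rfl
          intro v _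
          rw [← sum_filter]
          apply sum_congr _ (fun _ _ => rfl)
          ext x
          simp
      _ = ∑ x, ∑ v, if G.Adj v x then y x else 0 := sum_comm
      _ = ∑ x, y x * G.degree x := by
          apply sum_congr rfl
          intro x _
          rw [← sum_filter]
          simp only [sum_const, smul_eq_mul]
          rw [mul_comm, ← G.card_neighborFinset_eq_degree]
          congr 2
          ext v
          simp [G.adj_comm]
  calc 7 * (c * (V3 G n).card) ≤ 7 * ∑ x, y x * G.degree x :=
        Nat.mul_le_mul_left _ (h1.trans h2)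
    _ = ∑ x, y x * (7 * G.degree x) := by
        rw [mul_sum]
        apply sum_congr rfl
        intro x _
        ring
    _ ≤ ∑ x, y x * (3 * n) := sum_le_sum (fun x _ => Nat.mul_le_mul_left _ (hdeg x))
    _ = _ := by rw [sum_mul]

/-- The main lower bound. -/
theorem lower {n : ℕ} (hn : Fintype.card V = n) (hn0 : 300000 ≤ n) (h : D2 G)
    (hdeg6 : ∀ v, 7 * G.degree v + 6 ≤ 3 * n) : 301 * n < 100 * G.edgeFinset.card := by
  by_contra he
  push Not at he
  have hdeg : ∀ v, 7 * G.degree v ≤ 3 * n := fun v => by have := hdeg6 v; omega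
  have hb1 := card_big G (by omega) he
  have hV3 := card_V3 G hn (by omega) h hdeg
  have hV3' : 27 * n < 28 * (V3 G n).card := by omega
  -- members of `V3` are pairwise nonadjacent
  have hpair : ∀ v ∈ V3 G n, ∀ w ∈ V3 G n,
      (G.neighborFinset v ∩ G.neighborFinset w).Nonempty := by
    intro v hv w hw
    simp only [V3, mem_filter, mem_compl] at hv hw
    rcases h v w with rfl | h1 | ⟨u, h1, h2⟩
    · rw [inter_self, ← card_pos]
      have : G.degree v = 3 := hv.2.1
      rw [G.card_neighborFinset_eq_degree]
      omega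
    · exfalso
      apply hw.1
      apply hv.2.2
      simpa using h1
    · exact ⟨u, by simp [h1, h2.symm]⟩
  obtain ⟨p, hinj, hp⟩ := exists_fano (F := (V3 G n).image fun v => G.neighborFinset v)
    (by
      intro E hE
      rw [mem_image] at hE
      obtain ⟨v, hv, rfl⟩ := hE
      simp only [V3, mem_filter] at hv
      exact hv.2.1)
    (by
      intro E hE E' hE'
      rw [mem_image] at hE hE'
      obtain ⟨v, hv, rfl⟩ := hE
      obtain ⟨w, hw, rfl⟩ := hE'
      exact hpair v hv w hw)
    (by
      intro y c hc hy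
      by_contra hno
      push Not at hno
      have h1 := cover_bound G hdeg y c (fun v hv => hno _ (mem_image_of_mem _ hv))
      have h2 : 4 * (7 * (c * (V3 G n).card)) ≤ 9 * c * (3 * n) := by
        calc 4 * (7 * (c * (V3 G n).card)) ≤ 4 * ((∑ x, y x) * (3 * n)) :=
              Nat.mul_le_mul_left _ h1
          _ = (4 * ∑ x, y x) * (3 * n) := by ring
          _ ≤ 9 * c * (3 * n) := Nat.mul_le_mul_right _ hy
      have h3 : c * (28 * (V3 G n).card) ≤ c * (27 * n) := by
        calc c * (28 * (V3 G n).card) = 4 * (7 * (c * (V3 G n).card)) := by ring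
          _ ≤ 9 * c * (3 * n) := h2
          _ = c * (27 * n) := by ring
      have := Nat.le_of_mul_le_mul_left h3 hc
      omega)
  -- closed neighbourhoods within the Fano plane
  set S : V → Finset (Fin 7) := fun u => univ.filter fun i => p i = u ∨ G.Adj u (p i) with hS
  have hblock : ∀ u, ∀ l ∈ lines, (S u ∩ l).Nonempty := by
    intro u l hl
    have := hp l hl
    rw [mem_image] at this
    obtain ⟨v, hv, hvl⟩ := this
    have hmem : ∀ z, G.Adj v z → ∃ i ∈ l, p i = z := by
      intro z hz
      have : z ∈ G.neighborFinset v := by simpa using hz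
      rw [hvl, mem_image] at this
      exact this
    rcases h u v with rfl | h1 | ⟨w, h1, h2⟩
    · simp only [V3, mem_filter] at hv
      obtain ⟨z, hz⟩ : (G.neighborFinset u).Nonempty := by
        rw [← card_pos, G.card_neighborFinset_eq_degree]
        omega
      rw [SimpleGraph.mem_neighborFinset] at hz
      obtain ⟨i, hi, rfl⟩ := hmem z hz
      exact ⟨i, by simp [hS, hi, hz]⟩
    · obtain ⟨i, hi, rfl⟩ := hmem u h1.symm
      exact ⟨i, by simp [hS, hi]⟩
    · obtain ⟨i, hi, rfl⟩ := hmem w h2.symm
      exact ⟨i, by simp [hS, hi, h1]⟩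
  have hS3 : ∀ u, 3 ≤ (S u).card := fun u => (blocking _ (hblock u)).1
  -- upper bound
  have hup : ∑ u, (S u).card = ∑ i : Fin 7, (1 + G.degree (p i)) := by
    calc ∑ u, (S u).card = ∑ u, ∑ i : Fin 7, if p i = u ∨ G.Adj u (p i) then 1 else 0 := by
          apply sum_congr rfl
          intro u _
          rw [← sum_filter]
          simp [hS]
      _ = ∑ i : Fin 7, ∑ u, if p i = u ∨ G.Adj u (p i) then 1 else 0 := sum_comm
      _ = ∑ i : Fin 7, (1 + G.degree (p i)) := by
          apply sum_congr rfl
          intro i _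
          rw [← sum_filter]
          simp only [sum_const, smul_eq_mul, mul_one]
          have : (univ.filter fun u => p i = u ∨ G.Adj u (p i)) =
              insert (p i) (G.neighborFinset (p i)) := by
            ext u
            simp only [mem_filter, mem_univ, true_and, mem_insert, SimpleGraph.mem_neighborFinset]
            rw [G.adj_comm, eq_comm]
          rw [this, card_insert_of_notMem (by simp), G.card_neighborFinset_eq_degree]
          ring
  have hup2 : 7 * ∑ u, (S u).card ≤ 7 * (3 * n + 1) := by
    rw [hup, mul_sum]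
    calc ∑ i : Fin 7, 7 * (1 + G.degree (p i)) ≤ ∑ _i : Fin 7, (3 * n + 1) :=
          sum_le_sum (fun i _ => by have := hdeg6 (p i); omega)
      _ = 7 * (3 * n + 1) := by simp
  -- lower bound
  have hlow1 : 3 * (n - 7) ≤ ∑ u ∈ (univ.image p)ᶜ, (S u).card := by
    have hc : (univ.image p)ᶜ.card = n - 7 := by
      rw [card_compl, hn, card_image_of_injective _ hinj]
      simp
    rw [← hc, mul_comm, ← smul_eq_mul]
    exact card_nsmul_le_sum _ _ _ (fun u _ => hS3 u)
  have hlow2 : 23 ≤ ∑ u ∈ univ.image p, (S u).card := by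
    rw [sum_image (fun i _ j _ hij => hinj hij)]
    classical
    have hH : ∀ j, S (p j) = insert j ((G.comap p).neighborFinset j) := by
      intro j
      ext i
      simp only [hS, mem_filter, mem_univ, true_and, mem_insert, SimpleGraph.mem_neighborFinset,
        SimpleGraph.comap_adj]
      constructor
      · rintro (h | h)
        · exact Or.inl (hinj h)
        · exact Or.inr h
      · rintro (h | h)
        · exact Or.inl (by rw [h])
        · exact Or.inr h
    have := closed_sum (G.comap p) (fun j l hl => by
      rw [← hH]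
      exact hblock _ l hl)
    simp only [hH]
    exact this
  have hsum := sum_compl_add_sum (univ.image p) (fun u => (S u).card)
  omega

end Pool.Agent.TH528.DiamTwo
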