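import Mathlib
import Pool.Agent.TH528.DiamTwo.Lower

set_option autoImplicit false

/-!
# Constructions of graphs of diameter two
-/

namespace Pool.Agent.TH528.DiamTwo

open Finset

lemma d2_of_ediam {V : Type*} (G : SimpleGraph V) (h : G.ediam ≤ 2) : D2 G := by
  intro u v
  rw [SimpleGraph.ediam_le_iff] at h
  have huv := h u v
  have hne : G.edist u v ≠ ⊤ := by
    intro htop
    rw [htop] at huv
    exact absurd huv (by decide)
  obtain ⟨p, hp⟩ := SimpleGraph.exists_walk_of_edist_ne_top hne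
  rw [← hp] at huv
  have hlen : p.length ≤ 2 := by exact_mod_cast huv
  cases p with
  | nil => exact Or.inl rfl
  | cons h1 q =>
    cases q with
    | nil => exact Or.inr (Or.inl h1)
    | cons h2 r =>
      cases r with
      | nil => exact Or.inr (Or.inr ⟨_, h1, h2⟩)
      | cons h3 s =>
        simp only [SimpleGraph.Walk.length_cons] at hlen
        omega

lemma ediam_of_d2 {V : Type*} (G : SimpleGraph V) (h : D2 G) : G.ediam ≤ 2 := by
  apply SimpleGraph.ediam_le_of_edist_le
  intro u v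
  rcases h u v with rfl | h1 | ⟨w, h1, h2⟩
  · simp
  · have := SimpleGraph.edist_le (SimpleGraph.Walk.cons h1 SimpleGraph.Walk.nil)
    refine this.trans ?_
    simp
  · have := SimpleGraph.edist_le
      (SimpleGraph.Walk.cons h1 (SimpleGraph.Walk.cons h2 SimpleGraph.Walk.nil))
    refine this.trans ?_
    simp

/-- The closed neighbourhoods of the graph on the points. -/
def C : Fin 7 → Finset (Fin 7) :=
  ![{0, 1, 4, 6}, {0, 1, 5, 6}, {2, 3, 6}, {2, 3, 4, 5}, {0, 3, 4}, {1, 3, 5}, {0, 1, 2, 6}]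

/-- The lines, indexed. -/
def L : Fin 7 → Finset (Fin 7) :=
  ![{0, 1, 2}, {0, 3, 4}, {0, 5, 6}, {1, 3, 5}, {1, 4, 6}, {2, 3, 6}, {2, 4, 5}]

lemma C_symm : ∀ i j, j ∈ C i → i ∈ C j := by decide +kernel

lemma C_erase : ∀ i, ((C i).erase i).card ≤ 3 := by decide +kernel

lemma C_meet : ∀ i j, ∃ z, z ∈ C i ∧ z ∈ C j := by decide +kernel

lemma C_L : ∀ i l, ∃ z ∈ L l, z ∈ C i := by decide +kernel

lemma L_L : ∀ l l', ∃ z, z ∈ L l ∧ z ∈ L l' := by decide +kernel

lemma L_card : ∀ i, (univ.filter fun l => i ∈ L l).card = 3 := by decide +kernel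

lemma L_card' : ∀ l, (L l).card = 3 := by decide +kernel

/-- The graph of the construction. -/
def FG (m : ℕ) : SimpleGraph (Fin 7 ⊕ (Fin 7 × Fin m)) where
  Adj u v := match u, v with
    | Sum.inl i, Sum.inl j => i ≠ j ∧ j ∈ C i
    | Sum.inl i, Sum.inr q => i ∈ L q.1
    | Sum.inr q, Sum.inl i => i ∈ L q.1
    | Sum.inr _, Sum.inr _ => False
  symm := ⟨by
    rintro (i | q) (j | r) h
    · exact ⟨h.1.symm, C_symm _ _ h.2⟩
    · exact h
    · exact h
    · exact h⟩
  loopless := ⟨by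
    rintro (i | q) h
    · exact h.1 rfl
    · exact h⟩

instance (m : ℕ) : DecidableRel (FG m).Adj := by
  rintro (i | q) (j | r)
  · exact inferInstanceAs (Decidable (i ≠ j ∧ j ∈ C i))
  · exact inferInstanceAs (Decidable (i ∈ L r.1))
  · exact inferInstanceAs (Decidable (j ∈ L q.1))
  · exact inferInstanceAs (Decidable False)

lemma FG_d2 (m : ℕ) : D2 (FG m) := by
  have hll : ∀ i j : Fin 7, i ≠ j → j ∈ C i → (FG m).Adj (Sum.inl i) (Sum.inl j) :=
    fun i j h1 h2 => ⟨h1, h2⟩
  have hlr : ∀ (i : Fin 7) q, i ∈ L q.1 → (FG m).Adj (Sum.inl i) (Sum.inr q) :=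
    fun i q h => h
  have hrl : ∀ (i : Fin 7) q, i ∈ L q.1 → (FG m).Adj (Sum.inr q) (Sum.inl i) :=
    fun i q h => h
  rintro (i | q) (j | r)
  · by_cases hij : i = j
    · exact Or.inl (by rw [hij])
    obtain ⟨z, h1, h2⟩ := C_meet i j
    by_cases hzi : z = i
    · subst hzi
      exact Or.inr (Or.inl (hll _ _ hij (C_symm _ _ h2)))
    by_cases hzj : z = j
    · subst hzj
      exact Or.inr (Or.inl (hll _ _ hij h1))
    exact Or.inr (Or.inr ⟨Sum.inl z, hll _ _ (Ne.symm hzi) h1, hll _ _ hzj (C_symm _ _ h2)⟩)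
  · obtain ⟨z, h1, h2⟩ := C_L i r.1
    by_cases hzi : z = i
    · subst hzi
      exact Or.inr (Or.inl (hlr _ _ h1))
    · exact Or.inr (Or.inr ⟨Sum.inl z, hll _ _ (Ne.symm hzi) h2, hlr _ _ h1⟩)
  · obtain ⟨z, h1, h2⟩ := C_L j q.1
    by_cases hzi : z = j
    · subst hzi
      exact Or.inr (Or.inl (hrl _ _ h1))
    · exact Or.inr (Or.inr ⟨Sum.inl z, hrl _ _ h1, hll _ _ hzi (C_symm _ _ h2)⟩)
  · obtain ⟨z, h1, h2⟩ := L_L q.1 r.1
    exact Or.inr (Or.inr ⟨Sum.inl z, hrl _ _ h1, hlr _ _ h2⟩)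

lemma FG_degree_inl (m : ℕ) (i : Fin 7) : (FG m).degree (Sum.inl i) ≤ 3 * m + 3 := by
  have hsub : (FG m).neighborFinset (Sum.inl i) ⊆
      ((C i).erase i).disjSum ((univ.filter fun l => i ∈ L l) ×ˢ (univ : Finset (Fin m))) := by
    intro v hv
    rw [SimpleGraph.mem_neighborFinset] at hv
    rcases v with j | q
    · rw [inl_mem_disjSum, mem_erase]
      exact ⟨hv.1.symm, hv.2⟩
    · rw [inr_mem_disjSum, mem_product]
      have hv' : i ∈ L q.1 := hv
      exact ⟨by simpa using hv', mem_univ _⟩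
  have h1 := card_le_card hsub
  rw [card_disjSum, card_product, L_card] at h1
  have h2 := C_erase i
  simp only [card_univ, Fintype.card_fin] at h1
  change ((FG m).neighborFinset (Sum.inl i)).card ≤ _
  omega

lemma FG_degree_inr (m : ℕ) (q : Fin 7 × Fin m) : (FG m).degree (Sum.inr q) ≤ 3 := by
  have hsub : (FG m).neighborFinset (Sum.inr q) ⊆ (L q.1).disjSum ∅ := by
    intro v hv
    rw [SimpleGraph.mem_neighborFinset] at hv
    rcases v with j | r
    · rw [inl_mem_disjSum]
      exact hv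
    · exact hv.elim
  have h1 := card_le_card hsub
  rw [card_disjSum, L_card'] at h1
  simpa using h1

lemma FG_edges (m : ℕ) : (FG m).edgeFinset.card ≤ 21 * m + 10 := by
  have h := (FG m).sum_degrees_eq_twice_card_edges
  rw [Fintype.sum_sum_type] at h
  have h1 : ∑ i : Fin 7, (FG m).degree (Sum.inl i) ≤ ∑ _i : Fin 7, (3 * m + 3) :=
    sum_le_sum (fun i _ => FG_degree_inl m i)
  have h2 : ∑ q : Fin 7 × Fin m, (FG m).degree (Sum.inr q) ≤ ∑ _q : Fin 7 × Fin m, 3 :=
    sum_le_sum (fun i _ => FG_degree_inr m i)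
  simp only [sum_const, card_univ, Fintype.card_fin, Fintype.card_prod, smul_eq_mul] at h1 h2
  omega

/-- The blow-up of the pentagon. -/
def PG (n : ℕ) : SimpleGraph (Fin n) where
  Adj u v := (u.val + 1) % 5 = v.val % 5 ∨ (v.val + 1) % 5 = u.val % 5
  symm := ⟨fun _ _ h => h.symm⟩
  loopless := ⟨fun u h => by rcases h with h | h <;> omega⟩

instance (n : ℕ) : DecidableRel (PG n).Adj := fun u v =>
  inferInstanceAs (Decidable ((u.val + 1) % 5 = v.val % 5 ∨ (v.val + 1) % 5 = u.val % 5))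

lemma PG_d2 {n : ℕ} (hn : 5 ≤ n) : D2 (PG n) := by
  intro u v
  have hadj : ∀ a b : Fin n, (a.val + 1) % 5 = b.val % 5 ∨ (b.val + 1) % 5 = a.val % 5 →
      (PG n).Adj a b := fun a b h => h
  by_cases h1 : (u.val + 1) % 5 = v.val % 5 ∨ (v.val + 1) % 5 = u.val % 5
  · exact Or.inr (Or.inl h1)
  · right; right
    by_cases h2 : (u.val + 2) % 5 = v.val % 5 ∨ u.val % 5 = v.val % 5
    · refine ⟨⟨(u.val + 1) % 5, by omega⟩, hadj _ _ ?_, hadj _ _ ?_⟩
      · simp only; omega
      · simp only; omega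
    · refine ⟨⟨(u.val + 4) % 5, by omega⟩, hadj _ _ ?_, hadj _ _ ?_⟩
      · simp only; omega
      · simp only; omega

lemma card_residue (n r : ℕ) :
    (univ.filter fun v : Fin n => v.val % 5 = r).card ≤ n / 5 + 1 := by
  have : (univ.filter fun v : Fin n => v.val % 5 = r).card ≤ (range (n / 5 + 1)).card := by
    apply card_le_card_of_injOn (fun v => v.val / 5)
    · intro v _
      simp only [coe_range, Set.mem_Iio]
      have := v.isLt
      omega
    · intro v hv w hw hvw
      simp only [coe_filter, mem_univ, true_and, Set.mem_ofPred_eq] at hv hw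
      simp only at hvw
      apply Fin.ext
      omega
  simpa using this

lemma PG_degree (n : ℕ) (u : Fin n) : (PG n).degree u ≤ 2 * (n / 5 + 1) := by
  have hsub : (PG n).neighborFinset u ⊆ (univ.filter fun v : Fin n => v.val % 5 = (u.val + 1) % 5) ∪
      (univ.filter fun v : Fin n => v.val % 5 = (u.val + 4) % 5) := by
    intro v hv
    rw [SimpleGraph.mem_neighborFinset] at hv
    simp only [mem_union, mem_filter, mem_univ, true_and]
    rcases hv with h | h
    · left; omega
    · right; omega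
  have h1 := card_le_card hsub
  have h2 := card_union_le (univ.filter fun v : Fin n => v.val % 5 = (u.val + 1) % 5)
    (univ.filter fun v : Fin n => v.val % 5 = (u.val + 4) % 5)
  have h3 := card_residue n ((u.val + 1) % 5)
  have h4 := card_residue n ((u.val + 4) % 5)
  change ((PG n).neighborFinset u).card ≤ _
  omega

end Pool.Agent.TH528.DiamTwo
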